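import Pool.Agent.H60NL.Diag
import Pool.Agent.H60NL.Guess
import Pool.Agent.H60NL.Count3

set_option autoImplicit false

/-!
# A recursive oracle `A` with `P^A` strictly contained in `NL_*^A`

`A` consists of the strings `0 y` with `y` in a set `B` and of the strings
`1 ⟨⟨z, 1^k⟩, ⟨x, 1^t⟩⟩` such that the polynomial-time oracle algorithm number `z, k` accepts `x`
after `√t` rounds with oracle `A` itself. An `NL_*` machine decides a set in `P^A` by asking one
question of the second kind, padded to polynomial length. The value `A w` depends on at most `|w|`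
values of `B`, so that a diagonal construction gives a computable `B` with
`{x | ∃ y, |y| = |x|, y ∈ B}` not in `P^A`; that set is in `NL_*^A`, since a machine can write a
guessed string on the oracle tape.
-/

namespace Pool.Agent.Results.MP_b8a592_lc.RecursiveOracle

open Pool.Agent.NPC Pool.Agent.H60NL Pool.Agent.H620R2.Gauge

theorem clock_le (n m : ℕ) : n ^ m + m ≤ Nat.sqrt ((2 ^ (2 * m + 2)) ^ nd n) := by
  rw [Nat.le_sqrt]
  have h1 : n + 1 < 2 ^ nd n := by
    unfold nd
    exact Nat.lt_pow_succ_log_self (by norm_num) _
  obtain ⟨b, hb⟩ : ∃ b, b = 2 ^ nd n := ⟨_, rfl⟩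
  rw [← hb] at h1
  have h2 : (2 ^ (2 * m + 2)) ^ nd n = b ^ (m + 1) * b ^ (m + 1) := by
    rw [hb, ← pow_mul, ← pow_mul, ← pow_add]
    congr 1
    ring
  rw [h2]
  have h3 : n ^ m ≤ b ^ m := Nat.pow_le_pow_left (by omega) m
  have h4 : m < 2 ^ m := Nat.lt_two_pow_self
  have h5 : 2 ^ m ≤ b ^ m := Nat.pow_le_pow_left (by omega) m
  have h6 : n ^ m + m ≤ b ^ (m + 1) := by
    rw [pow_succ]
    nlinarith
  exact Nat.mul_le_mul h6 h6

/-- There is a recursive oracle `A` such that every language in `P` relative to `A` is in `NL_*`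
relative to `A`, and some language in `NL_*` relative to `A` is not in `P` relative to `A`. -/
theorem result : ∃ A : List Bool → Bool, Computable A ∧
    (∀ L : Set (List Bool), IsP A L → IsNLstar A L) ∧
    ∃ L : Set (List Bool), IsNLstar A L ∧ ¬ IsP A L := by
  refine ⟨AB Bf, prim_A.to_comp, ?_, {x | ∃ y : List Bool, y.length = x.length ∧
    AB Bf (false :: y) = true}, nl_guess _, ?_⟩
  · rintro L ⟨V, ⟨M, hM⟩, hL⟩
    obtain ⟨z, k, m, h⟩ := sim_alg M
    have h1 := nl_cnt (true :: ((pairBits z (List.replicate k true)).flatMap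
      (fun b => [true, b]) ++ [false])) (B := 2 ^ (2 * m + 2))
      (by
        have : (2 : ℕ) ^ 1 ≤ 2 ^ (2 * m + 2) := Nat.pow_le_pow_right (by norm_num) (by omega)
        simpa using this) (AB Bf)
    have h2 : {x : List Bool | AB Bf ((true :: ((pairBits z (List.replicate k true)).flatMap
        (fun b => [true, b]) ++ [false])) ++ x.flatMap (fun b => [true, b]) ++
        false :: List.replicate ((2 ^ (2 * m + 2)) ^ nd x.length) true) = true} = L := by
      ext x
      have h3 : (true :: ((pairBits z (List.replicate k true)).flatMap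
          (fun b => [true, b]) ++ [false])) ++ x.flatMap (fun b => [true, b]) ++
          false :: List.replicate ((2 ^ (2 * m + 2)) ^ nd x.length) true =
          true :: pairBits (pairBits z (List.replicate k true))
            (pairBits x (List.replicate ((2 ^ (2 * m + 2)) ^ nd x.length) true)) := by
        simp [pairBits]
      show AB Bf _ = true ↔ x ∈ L
      rw [h3, AB_true, h (AB Bf) x (V x) _ (hM x) (clock_le _ _), hL x]
      simp
    rw [h2] at h1
    exact h1
  · rintro ⟨V, ⟨M, hM⟩, hL⟩
    obtain ⟨z, k, m, h⟩ := sim_alg M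
    obtain ⟨n, hn⟩ := diag z k m
    have h1 := hL (List.replicate n true)
    rw [h (AB Bf) (List.replicate n true) _ (n ^ m + m) (hM _) (by simp)] at hn
    have h2 : (List.replicate n true) ∈ {x : List Bool | ∃ y : List Bool,
        y.length = x.length ∧ AB Bf (false :: y) = true} ↔
        ∃ y : List Bool, y.length = n ∧ Bf y = true := by
      show (∃ y : List Bool, y.length = (List.replicate n true).length ∧ _) ↔ _
      simp only [List.length_replicate, AB_false]
    rw [h2, hn] at h1
    simp at h1

end Pool.Agent.Results.MP_b8a592_lc.RecursiveOracle
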